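import Pool.Agent.H97.LA.Targets
import Pool.Agent.H60.SYM.Core

/-!
Circuits with linear algebra gates (MP_c62aed_lc), row CORLA: the circuit does not separate the two
formulas.
-/

set_option autoImplicit false

namespace Pool.Agent.H77.LA

open Finset Pool.Agent.H60.SYM Pool.Agent.H42.XS Pool.Agent.H97.LA

theorem val_inp {I V : Type} {s t : ℕ} (C : LCirc I V s t) (φ : I → Bool) (g : Fin s) (D : I)
    (h : C.inp g = some D) : C.val φ g = C.bit (φ D) := by
  rw [LCirc.val]
  simp only [h]

theorem pair_zero {n : ℕ} (f : Fin n → ZMod 2) : pair 0 f = 0 := by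
  simp [pair]

theorem pair_zero' {n : ℕ} (f : Fin n → ZMod 2) : pair f 0 = 0 := by
  simp [pair]

theorem pair_add {n : ℕ} (z w f : Fin n → ZMod 2) : pair (z + w) f = pair z f + pair w f := by
  simp [pair, add_mul, sum_add_distrib]

theorem zmod_cases (x : ZMod 2) : x = 0 ∨ x = 1 := by
  revert x
  decide

/-- the stabiliser of a gate -/
def stab {n s t k : ℕ} {V : Type} (U : Submodule (ZMod 2) (Fin n → ZMod 2))
    (C : LCirc (Cl n k) V s t) (a : (Fin n → ZMod 2) → Equiv.Perm (Fin s))
    (b : (Fin n → ZMod 2) → Equiv.Perm (Fin t)) (h : IsAct U C a b) (g : Fin s) :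
    Submodule (ZMod 2) (Fin n → ZMod 2) where
  carrier := {f | f ∈ U ∧ a f g = g}
  zero_mem' := by
    refine ⟨U.zero_mem, ?_⟩
    have h1 := h.ga 0 U.zero_mem 0 U.zero_mem
    rw [add_zero] at h1
    have h2 : a 0 = 1 := (mul_eq_left.1 h1.symm)
    rw [h2]
    rfl
  add_mem' := by
    rintro f f' ⟨hf, h1⟩ ⟨hf', h2⟩
    refine ⟨U.add_mem hf hf', ?_⟩
    rw [h.ga f hf f' hf', Equiv.Perm.mul_apply, h2, h1]
  smul_mem' := by
    rintro r f ⟨hf, h1⟩
    rcases zmod_cases r with rfl | rfl
    · rw [zero_smul]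
      refine ⟨U.zero_mem, ?_⟩
      have h1 := h.ga 0 U.zero_mem 0 U.zero_mem
      rw [add_zero] at h1
      have h2 : a 0 = 1 := (mul_eq_left.1 h1.symm)
      rw [h2]
      rfl
    · rw [one_smul]
      exact ⟨hf, h1⟩

/-- a set of vectors closed under addition is a submodule -/
def smod {M : ℕ} (S : (Fin M → ZMod 2) → Prop) (h0 : S 0) (ha : ∀ c c', S c → S c' → S (c + c')) :
    Submodule (ZMod 2) (Fin M → ZMod 2) where
  carrier := {c | S c}
  zero_mem' := h0
  add_mem' := fun {c c'} h1 h2 => ha c c' h1 h2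
  smul_mem' := by
    intro r c hc
    rcases zmod_cases r with rfl | rfl
    · rw [zero_smul]
      exact h0
    · rw [one_smul]
      exact hc

theorem wt_pos {M : ℕ} {y : Fin M → ZMod 2} (h : y ≠ 0) : ∃ i, y i ≠ 0 := by
  by_contra hcon
  push Not at hcon
  exact h (funext hcon)

/-- two different vectors of weight one have a sum of weight two -/
theorem wt_two {M : ℕ} {y y' : Fin M → ZMod 2} (h : y ≠ 0) (h' : y' ≠ 0) (hy : wt y ≤ 1)
    (hy' : wt y' ≤ 1) (hne : y' ≠ y) : ¬ wt (y + y') ≤ 1 := by
  obtain ⟨i, hi⟩ := wt_pos h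
  obtain ⟨j, hj⟩ := wt_pos h'
  have huniq : ∀ z : Fin M → ZMod 2, wt z ≤ 1 → ∀ p q, z p ≠ 0 → z q ≠ 0 → p = q := by
    intro z hz p q hp hq
    exact Finset.card_le_one.1 hz p (by simp [hp]) q (by simp [hq])
  have hy0 : ∀ p, p ≠ i → y p = 0 := fun p hp => by
    by_contra hc
    exact hp (huniq y hy p i hc hi)
  have hy0' : ∀ p, p ≠ j → y' p = 0 := fun p hp => by
    by_contra hc
    exact hp (huniq y' hy' p j hc hj)
  intro hs
  by_cases hij : i = j
  · subst hij
    apply hne
    funext p
    by_cases hp : p = i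
    · subst hp
      rcases zmod_cases (y p) with h1 | h1
      · exact absurd h1 hi
      · rcases zmod_cases (y' p) with h2 | h2
        · exact absurd h2 hj
        · rw [h1, h2]
    · rw [hy0 p hp, hy0' p hp]
  · refine hij (huniq (y + y') hs i j ?_ ?_)
    · rw [Pi.add_apply, hy0' i hij, add_zero]
      exact hi
    · rw [Pi.add_apply, hy0 j (Ne.symm hij), zero_add]
      exact hj

/-- Row CORLA -/
theorem pf_CORLA (hSTEP : T_STEP) (hINPX : T_INPX) (hFMS : T_FMS) (_hVALA : T_VALA) :
    T_CORLA := by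
  classical
  intro M n d s t s₀ ρ R V e U C a b c he hAct hs hρ hR hA hB hC
  have hF0 := hFMS M n d e
  have hcz : comb e 0 = 0 := by
    funext v
    simp [comb]
  have hs0R : 2 * s₀ ≤ R := by nlinarith
  -- the gate as a witness
  have hgate : ∀ (g : Fin s) (z : Fin n → ZMod 2), (∀ f ∈ U, a f g = g → pair z f = 0) →
      AvB U a b z := fun g z h => Or.inl ⟨g, h⟩
  have hindex : ∀ (W : Submodule (ZMod 2) (Fin n → ZMod 2)) (g : Fin s),
      (∀ f, f ∈ W ↔ f ∈ U ∧ a f g = g) → ∀ z : Fin n → ZMod 2,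
      (∃ i, C.own i = g ∧ ∀ w ∈ W, b w i = i → pair z w = 0) → AvB U a b z := by
    rintro W g hW z ⟨i, hi, hz⟩
    refine Or.inr ⟨i, fun f hf hbf => hz f ((hW f).2 ⟨hf, ?_⟩) hbf⟩
    have h1 := hAct.own f hf i
    rw [hbf, hi] at h1
    exact h1.symm
  -- one step
  have hstep : ∀ (g : Fin s) (W : Submodule (ZMod 2) (Fin n → ZMod 2)), C.inp g = none →
      (∀ f, f ∈ W ↔ f ∈ U ∧ a f g = g) →
      (∀ l i j, C.own i = g → C.own j = g → Dep e C s₀ (C.ch l i j)) →
      ∀ β β', (∀ c : Fin M → ZMod 2, wt c < s₀ → perp W (comb e c) → pair c β = pair c β') →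
        C.val (fml e β) g = C.val (fml e β') g := by
    intro g W hg hW hdep
    refine hSTEP M n d s t s₀ ρ R V e U W C a b g hAct hW hg (by omega) hρ hR ?_ ?_ hdep
    · intro y h1 h2 h3
      exact hB y h1 h2 (hgate g _ fun f hf hag => h3 f ((hW f).2 ⟨hf, hag⟩))
    · intro u₀ T hT h1 h2
      exact hC u₀ (hindex W g hW u₀ h1) T hT fun j => hindex W g hW _ (h2 j)
  -- the values depend on few right hand sides
  have hdep : ∀ N : ℕ, ∀ g : Fin s, g.1 < N → Dep e C s₀ g := by
    intro N
    induction N with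
    | zero => intro g hg; exact absurd hg (Nat.not_lt_zero _)
    | succ N ih =>
      intro g hgN
      rcases hin : C.inp g with _ | D
      · have hW : ∀ f, f ∈ stab U C a b hAct g ↔ f ∈ U ∧ a f g = g := fun f => Iff.rfl
        have hp0 : perp (stab U C a b hAct g) (comb e 0) := by
          intro f _
          rw [hcz, pair_zero]
        have hadd : ∀ c c' : Fin M → ZMod 2,
            (wt c < s₀ ∧ perp (stab U C a b hAct g) (comb e c)) →
            (wt c' < s₀ ∧ perp (stab U C a b hAct g) (comb e c')) →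
            (wt (c + c') < s₀ ∧ perp (stab U C a b hAct g) (comb e (c + c'))) := by
          rintro c c' ⟨h1, h2⟩ ⟨h3, h4⟩
          have h5 : perp (stab U C a b hAct g) (comb e (c + c')) := by
            intro f hf
            rw [(hF0 0).2.2 c c', pair_add, h2 f hf, h4 f hf, add_zero]
          refine ⟨?_, h5⟩
          by_contra h6
          have h7 := wt_add_le' c c'
          refine hB (c + c') (not_lt.1 h6) (by omega) (hgate g _ fun f hf hag => h5 f ⟨hf, hag⟩)
        refine ⟨smod (fun c => wt c < s₀ ∧ perp (stab U C a b hAct g) (comb e c))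
          ⟨by rw [wt_zero']; omega, hp0⟩ hadd, fun c hc => hc.1, fun β β' hββ => ?_⟩
        refine hstep g _ hin hW (fun l i j hi hj => ih _ ?_) β β'
          fun c h1 h2 => hββ c ⟨h1, h2⟩
        have h1 := C.acyclic l i j (hi.trans hj.symm)
        rw [hi] at h1
        exact lt_of_lt_of_le h1 (Nat.lt_succ_iff.1 hgN)
      · obtain ⟨H, hH1, hH2⟩ := hINPX M n d e he D
        refine ⟨H, fun c hc => by have := hH1 c hc; omega, fun β β' h => ?_⟩
        rw [val_inp C _ g D hin, val_inp C _ g D hin, hH2 β β' h]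
  have hall : ∀ g : Fin s, Dep e C s₀ g := fun g => hdep (g.1 + 1) g (Nat.lt_succ_self _)
  rcases hin : C.inp C.out with _ | D
  · refine hstep C.out U hin (fun f => ⟨fun hf => ⟨hf, hAct.out f hf⟩, fun h => h.1⟩)
      (fun l i j _ _ => hall _) 0 c fun y h1 h2 => ?_
    have hy : y = 0 := by
      by_contra h3
      exact hA y h3 h1 h2
    rw [hy, pair_zero, pair_zero]
  · obtain ⟨H, hH1, hH2⟩ := hINPX M n d e he D
    rw [val_inp C _ _ D hin, val_inp C _ _ D hin]
    have hex : ∀ f ∈ U, exch f D = D := by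
      intro f hf
      have h1 := hAct.inp f hf C.out
      rw [hAct.out f hf, hin, Option.map_some] at h1
      exact (Option.some.inj h1).symm
    by_cases hall0 : ∀ y ∈ H, pair y c = 0
    · rw [hH2 0 c fun y hy => by rw [pair_zero', hall0 y hy]]
    · push Not at hall0
      obtain ⟨y, hyH, hyc⟩ := hall0
      have hy0 : y ≠ 0 := by
        rintro rfl
        exact hyc (pair_zero c)
      have h1 := hA y hy0 (by have := hH1 y hyH; omega)
      unfold perp at h1
      push Not at h1
      obtain ⟨f, hf, hfy⟩ := h1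
      have h2 : ∀ y' ∈ H, pair y' c = pair y' (sft e f) := by
        intro y' hy'
        by_cases h3 : y' = 0
        · rw [h3, pair_zero, pair_zero]
        · by_cases h4 : y' = y
          · subst h4
            rw [(hF0 f).2.1 y']
            rcases zmod_cases (pair y' c) with h5 | h5
            · exact absurd h5 hyc
            · rcases zmod_cases (pair (comb e y') f) with h6 | h6
              · exact absurd h6 hfy
              · rw [h5, h6]
          · exact absurd (hH1 (y + y') (H.add_mem hyH hy'))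
              (wt_two hy0 h3 (hH1 y hyH) (hH1 y' hy') h4)
      have h3 : fml e c D = fml e 0 D := by
        rw [hH2 c (sft e f) h2]
        have h4 := congrFun ((hF0 f).1 0) D
        rw [zero_add] at h4
        rw [h4, hex f hf]
      rw [h3]

end Pool.Agent.H77.LA
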