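import Pool.Agent.H97.LA.Targets
import Pool.Agent.H77.XS.CORX

/-!
Circuits with linear algebra gates (MP_c62aed_lc), row FMS: exchanges change the right hand sides.
-/

set_option autoImplicit false

namespace Pool.Agent.H77.LA

open Finset Pool.Agent.H60.SYM Pool.Agent.H42.XS Pool.Agent.H97.LA
open Pool.Agent.H77.XS.CORX (fml_iff pair_comb zz)

/-- Row FMS -/
theorem pf_FMS (hCLA : T_CLA) (hEX : T_EX) : T_FMS := by
  intro M n d e f
  obtain ⟨hE1, hE2, -⟩ := hEX n (d + 1)
  obtain ⟨-, hC2, -, -⟩ := hCLA n d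
  have hff : f + f = 0 := funext fun j => zz _
  refine ⟨fun β => ?_, fun c => ?_, fun c c' => ?_⟩
  · funext D
    refine Bool.eq_iff_iff.2 ?_
    rw [fml_iff, fml_iff]
    constructor
    · rintro ⟨i, a, ha, rfl⟩
      refine ⟨i, fun p => a p + f (e i p), ?_, hC2 _ _ _⟩
      rw [Finset.sum_add_distrib, ha]
      have h1 : (β + sft e f) i = β i + ∑ p, f (e i p) := rfl
      rw [h1]
      have h2 : β i + ∑ p, f (e i p) + 1 + ∑ p, f (e i p) =
        β i + 1 + (∑ p, f (e i p) + ∑ p, f (e i p)) := by ring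
      rw [h2, zz, add_zero]
    · rintro ⟨i, a, ha, hD⟩
      refine ⟨i, fun p => a p + f (e i p), ?_, ?_⟩
      · rw [Finset.sum_add_distrib, ha]
        have h1 : (β + sft e f) i = β i + ∑ p, f (e i p) := rfl
        rw [h1]
        ring
      · rw [← hC2, ← hD, ← hE1, hff, hE2]
  · rw [pair_comb]
    rfl
  · funext v
    simp only [comb, Pi.add_apply]
    rw [← Finset.sum_add_distrib]
    refine Finset.sum_congr rfl fun i _ => ?_
    rw [← Finset.sum_add_distrib]
    refine Finset.sum_congr rfl fun p _ => ?_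
    split_ifs <;> simp

end Pool.Agent.H77.LA
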